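import Pool.Agent.helper93.ADV.SpecU

set_option autoImplicit false

namespace Pool.Agent.ADV

open Finset Pool.Agent.helper38.Neg Pool.Agent.helper55.NT Pool.Agent.LNB

lemma UPR_core (hWCR : WCR_stmt) (hAVG : AVG_stmt) (n s u r : ℕ) (C : Circuit n s)
    (o : Fin (n + s)) (D : (Fin n → Bool) → ℝ) (hD : IsDist D) (hr : 2 ^ r ≤ 2 * n + 2) :
    ∃ s' ≤ (4 * n + 4) * (2 * (2 * n + 2) ^ 3 + 2 * s + 12) + n + 1, ∃ (C' : Circuit n s')
      (o' : Fin (n + s')), FewDep u r C' ∧ 1 / (2 * (nwin u r n : ℝ)) ≤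
        adv D (fun x => C.val x o = true) fun x => C'.val x o' := by
  have hpow : 2 ^ (r + 1) ≤ 4 * n + 4 := by
    rw [pow_succ]
    omega
  have hK : 1 ≤ 2 ^ (r + 1) - 1 := by
    have : 2 ^ 1 ≤ 2 ^ (r + 1) := Nat.pow_le_pow_right (by norm_num) (by omega)
    omega
  obtain ⟨w, hw⟩ := hAVG n u (2 ^ (r + 1) - 1) hK (fun x => C.val x o) D hD
  rcases hw with hw | hw
  · obtain ⟨s', hs', C', o', hF, hv⟩ := hWCR n s u r w C o
    refine ⟨s', hs'.trans ?_, C', o', hF, ?_⟩
    · have h1 : 2 ^ (r + 1) * (2 * (2 * n + 2) ^ 3 + 2 * s + 10) ≤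
          (4 * n + 4) * (2 * (2 * n + 2) ^ 3 + 2 * s + 12) := Nat.mul_le_mul hpow (by omega)
      omega
    · have e : (fun x => C'.val x o') = winu u w (2 ^ (r + 1) - 1) (fun x => C.val x o) :=
        funext hv
      rw [e]
      exact hw
  · obtain ⟨s', hs', C', o', hF, hv⟩ := hWCR n (s + 1) u r w (Circuit.snoc C (Gate.not o))
      (Fin.last (n + s))
    refine ⟨s', hs'.trans ?_, C', o', hF, ?_⟩
    · have h1 : 2 ^ (r + 1) * (2 * (2 * n + 2) ^ 3 + 2 * (s + 1) + 10) ≤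
          (4 * n + 4) * (2 * (2 * n + 2) ^ 3 + 2 * s + 12) := Nat.mul_le_mul hpow (by omega)
      omega
    · have e2 : (fun x => (Circuit.snoc C (Gate.not o)).val x (Fin.last (n + s))) =
          fun x => !(C.val x o) := by
        funext x
        simp [Circuit.val, Gate.eval]
      have e : (fun x => C'.val x o') = winu u w (2 ^ (r + 1) - 1) (fun x => !(C.val x o)) := by
        rw [← e2]
        exact funext hv
      rw [e]
      exact hw

theorem UPR (hWCR : WCR_stmt) (hAVG : AVG_stmt) : UPR_stmt := by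
  intro n s u r C o D hD
  by_cases hr : 2 ^ r ≤ 2 * n + 2
  · exact UPR_core hWCR hAVG n s u r C o D hD hr
  · have hone : ∀ k, min u n + 1 ≤ 2 ^ (k + 1) - 1 → nwin u k n = 1 := by
      intro k hk
      unfold nwin
      rw [Nat.add_div_right _ (by omega), Nat.div_eq_of_lt (by omega)]
    have hm : min u n ≤ n := min_le_right _ _
    have hex : ∃ k, min u n + 1 ≤ 2 ^ (k + 1) - 1 := by
      refine ⟨r, ?_⟩
      rw [pow_succ]
      omega
    have hPr : min u n + 1 ≤ 2 ^ (r + 1) - 1 := by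
      rw [pow_succ]
      omega
    obtain ⟨r', hr', hle, hsm⟩ : ∃ r', min u n + 1 ≤ 2 ^ (r' + 1) - 1 ∧ r' ≤ r ∧
        2 ^ r' ≤ 2 * n + 2 := by
      refine ⟨Nat.find hex, Nat.find_spec hex, Nat.find_min' hex hPr, ?_⟩
      rcases Nat.eq_zero_or_pos (Nat.find hex) with h0 | h0
      · rw [h0]
        omega
      · have h1 := Nat.find_min hex (m := Nat.find hex - 1) (by omega)
        have h2 : Nat.find hex - 1 + 1 = Nat.find hex := by omega
        rw [h2] at h1
        omega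
    obtain ⟨s', hs', C', o', hF, hv⟩ := UPR_core hWCR hAVG n s u r' C o D hD hsm
    refine ⟨s', hs', C', o', ?_, ?_⟩
    · obtain ⟨S, hS, hS'⟩ := hF
      exact ⟨S, hS.trans hle, hS'⟩
    · rw [hone r hPr, ← hone r' hr']
      exact hv

end Pool.Agent.ADV
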